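import Pool.Agent.K7.H38.KN.PChain

set_option autoImplicit false

/-!
# Linear chains of double branched covers of doubled three-braids

For a braid `w` on three strands let `X(w)` be the double branched cover of the complement of two
balls, one on each side of `w`, along the closed chain `∘ w ∘ w⁻¹`, where the two holes `∘` are
between the strands 1 and 2. It has two boundary tori, with the slopes `A` (the region between the
strands 2 and 3 at the hole) and `a` (the quotient of the regions between the strands 1 and 2 on the
two sides of the hole). The Dehn filling along `a` has infinite first homology: `a` is the longitude.
(For instance `X(σ₂ ^ 2)`, filled along the slope `A`, is the twisted `I`-bundle over the Klein bottle.)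

The theorem is about closed manifolds that are linear chains of at least two of the manifolds `X(w)`:
consecutive ones are glued by any identification of the boundary tori that does not identify the
longitudes, and the two ends are closed by double branched covers of tangles: solid tori (rational
tangles `p / q`, `p ≠ 0`, of any sign and size) or double branched covers of alternating tangles of
either sign. If `cross w ≠ 0` for all braids `w` of the chain, then every homomorphism from the
fundamental group to a left-orderable group is trivial; in particular this group is not
left-orderable.

`cross w` is an entry of the matrix of `w`, and it is zero if and only if `w` fixes the curve around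
the strands 1, 2. If `cross w` is not `0`, `1` or `-1` then the tori between the pieces are
incompressible in the sense that both tori of `X(w)` inject.

The manifold `B ∪ X(w)` with the parametrisation of the boundary torus by the matrix `(x y; z t)` is
`Nest.enc B w x y z t`; the condition on the longitudes is `z ≠ 0`. The closed manifold is
`pdoubled B₁ w B₂`: the chain in which the two holes of `X(w)` are filled by `B₁` and `B₂`. The
chains with one manifold `X(w)` are the subject of `KanenobuKnots` of MP_3d425c_gt; the statement here
is restricted to the chains with at least two of them (`B₁` is `Nest.enc B w₁ x y z t`).

Idea of the proof. Call a piece good if in all actions on complete linear orders the fixed points of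
its element `a` are global. The tangles are good. If `M` is good then in the fundamental group of
`M ∪ X(w)` the element `a` never moves all points in the same direction, and the common fixed points
of `A` and `a` are global (the argument of `KanenobuKnots`). Apply the first fact to the interval
between two successive common fixed points of `A` and `a`: `a` has a fixed point `f` in it. If
`A ^ z a ^ t`, `z ≠ 0`, fixes the point `x` in the same interval, then `A ^ z` fixes the limit of
`a ^ n x`, a common fixed point of `A` and `a` between `x` and `f`: a contradiction. So `M ∪ X(w)`
with the element `A ^ z a ^ t` is good again, and one can go on by induction.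
-/

namespace Pool.Agent.Results.MP_9ae2f3_gt.LinearChains

open Pool.Agent.Y479.LS Pool.Agent.K7.H39.TB Pool.Agent.K7.H38.KN

/-- **Linear chains of at least two manifolds `X(w)`.** -/
theorem result (B₁ B₂ : Nest) (w₁ w : List (Bool × ℤ)) (x y z t : ℤ)
    (h₁ : (Nest.enc B₁ w₁ x y z t).Ok) (h₂ : B₂.Ok) (hw : cross w ≠ 0) :
    (∀ (H : Type) [Group H], LeftOrderable H →
      ∀ (f : PChainGrp (pdoubled (Nest.enc B₁ w₁ x y z t).piece w B₂.piece) →* H)
        (γ : PChainGrp (pdoubled (Nest.enc B₁ w₁ x y z t).piece w B₂.piece)), f γ = 1) ∧
      ¬ LeftOrderable (PChainGrp (pdoubled (Nest.enc B₁ w₁ x y z t).piece w B₂.piece)) :=
  have h := pclosed hw (Nest.fc _ h₁) (Nest.fc _ h₂)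
  ⟨h, h.not_leftOrderable⟩

end Pool.Agent.Results.MP_9ae2f3_gt.LinearChains
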