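import Pool.Agent.K7.H39.TB.Glued

set_option autoImplicit false

/-!
# Positive closed chains of at most ten tangles on three strands

A word in the letters `a`, `A` (first kind) and `b`, `B` (second kind) is read cyclically. A letter of
the first kind stands for a tangle between the strands 1 and 2 of a closed braid on three strands, a
letter of the second kind for a tangle between the strands 2 and 3. The tangle is the rational tangle
`p / q ≥ 0` (`σ₁` or `σ₂` to the power `p / q`) or an alternating tangle diagram of the same sign; the
letters `a` and `b` stand for bounded tangles: `p / q ≤ 1`, respectively a sum of tangles one of which
is a single crossing. So all crossings of the chain are positive in the sense that the chain is a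
positive braid if all tangles are single crossings; the diagrams are not alternating.

`ChainGrp w T` is the fundamental group of the double branched cover of the closed chain. It is
generated by the regions `A i` between the strands 2 and 3, the regions `B i` between the strands 1
and 2 (the inner region and the outer region are equal to `1`) and by the fundamental groups of the
double branched covers of the tangles. If all tangles are rational then the cover is the closed
manifold obtained by surgery on a chain link with `2 n` components, known as Takahashi manifold.

The theorem: for the four words `ababababab`, `aabaabaab`, `abbabbabb`, `AbaBab` the group has no
nontrivial homomorphism to a left-orderable group, provided that at least one tangle of each kind is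
not the trivial tangle `0 / q`.

If all tangles of the first kind are `1 / k` and all tangles of the second kind are `1 / l`, the word
`ababababab` gives the five-fold cyclic branched covers of the two-bridge knots of genus one.
-/

namespace Pool.Agent.Results.MP_9ae2f3_gt.PositiveTangleChains

open Pool.Agent.Y479.LS Pool.Agent.K7.H39.TB

/-- **Positive closed chains of tangles on three strands.** -/
theorem result (w : List Letter) (hw : w ∈ words) (T : Fin w.length → Tang)
    (hb : ∀ i, (w.get i).bounded = true → (T i).Bounded)
    (hA : ∃ i : Fin w.length, (w.get i).isA = true ∧ (T i).Proper)
    (hB : ∃ i : Fin w.length, (w.get i).isA = false ∧ (T i).Proper) :
    (∀ (H : Type) [Group H], LeftOrderable H → ∀ (f : ChainGrp w T →* H) (γ : ChainGrp w T),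
      f γ = 1) ∧ ¬ LeftOrderable (ChainGrp w T) :=
  ⟨chain_noLO hw T hb hA hB, (chain_noLO hw T hb hA hB).not_leftOrderable⟩

end Pool.Agent.Results.MP_9ae2f3_gt.PositiveTangleChains
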