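import Pool.Agent.K7.H39.PC.Link
import Pool.Agent.K7.H39.PC.Closed

set_option autoImplicit false

/-!
# Surgeries on the lifts of the crossing circles of a pretzel knot

Let `K` be the unknot drawn as the pretzel knot `P(1, -1, -1)` and let `C 0`, `C 1`, `C 2` be
circles around the three columns of `K`.  For `n ≥ 1` the preimage of the three circles in the
`n`-fold cyclic cover of the 3-sphere branched along `K` (again a 3-sphere) is a link with `3 n`
components (the group of this link and of its surgeries is defined in the file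
`Pool.Agent.K7.H39.PC.Link`).  Surgery on the component over `C j` in the copy `i` replaces in this
copy the `j`-th column by `± (2 r + 1)` crossings, where `r` is a rational number or infinity.

The copy `i` is called regular if `r` is in `[1, ∞]`, `[0, 1]`, `[0, ∞]` in the columns `0`, `1`,
`2`, but not `(1, 1, ∞)`.

* Closed chains: if all copies are regular, and `r` is not always infinite in column `0` and not
  always infinite in column `2`, then the fundamental group of the surgered manifold has no
  nontrivial homomorphism to a left-orderable group.  If `r` does not depend on the copy and is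
  an integer in each column, the manifold is the `n`-fold cyclic branched cover of a pretzel knot
  `P(2p+1, -(2a+1), -(2k+1))`.
* Open chains: the same is true if there is no surgery in the columns `0` and `1` of the copy `0`,
  `r` is finite and at least `0` in the column `2` of this copy, and all other copies are regular.

Idea: put `z = X₀ ^ r₀ * X₂ ^ r₂` and `u = (X₀ X₂) ^ r₁ * X₀ ^ (- r₀)` in each copy, where `X j` is
the longitude of the circle `j`.  Then `z (i+1) = X₀ z i X₂` and `u (i-1) = X₂ u i`.  Let a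
left-ordered quotient act on itself.  One shows in each copy: if `u i` moves all points between `t`
and `z (i+1) t` down, and `z (i+1) t` even below `t`, then the same is true for `i - 1`, and
`X₂ t < t`.  So in a closed chain `(u i)⁻¹ t` decreases with `i`, a contradiction; in an open chain
one ends with `u 0 = 1`, a contradiction too.  It follows that `u i z i t` and `z (i+1) t` are on the
same side of `t` as `z i t`.  In a closed chain with all `z i t > t` let `m` be the least of the
points `z i t`; then `u i m` decreases with `i`.  In an open chain `z n` is a power of `u (n-1)`.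
-/

namespace Pool.Agent.Results.MP_9ae2f3_gt.PretzelChainSurgeries

open Pool.Agent.K7.H39.PC

/-- The copy `i` is regular: its slopes `p j i / q j i` are at least `1` (possibly infinite),
between `0` and `1`, at least `0` (possibly infinite) in the columns `0`, `1`, `2`, and they are
not `(1, 1, ∞)`. -/
structure Regular {n : ℕ} (p q : Fin 3 → ZMod n → ℕ) (i : ZMod n) : Prop where
  col0 : 0 < p 0 i ∧ q 0 i ≤ p 0 i
  col1 : 0 < q 1 i ∧ p 1 i ≤ q 1 i
  col2 : 0 < p 2 i ∨ 0 < q 2 i
  not_flat : ¬ (q 0 i = p 0 i ∧ p 1 i = q 1 i ∧ q 2 i = 0)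

/-- The slopes of a closed chain: all copies are regular, one slope in the columns `0` is finite,
and one slope in the columns `2` is finite. -/
structure ClosedSlopes (n : ℕ) (p q : Fin 3 → ZMod n → ℕ) : Prop where
  regular : ∀ i, Regular p q i
  finite0 : ∃ i, 0 < q 0 i
  finite2 : ∃ i, 0 < q 2 i

/-- The slopes of an open chain: in the copy `0` they are `0`, `0` and a finite nonnegative
number, and all other copies are regular. -/
structure OpenSlopes (n : ℕ) (p q : Fin 3 → ZMod n → ℕ) : Prop where
  start0 : p 0 0 = 0 ∧ 0 < q 0 0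
  start1 : p 1 0 = 0 ∧ 0 < q 1 0
  start2 : 0 < q 2 0
  regular : ∀ i, i ≠ 0 → Regular p q i

section data
variable {H : Type*} [Group H] {n : ℕ} {x w c : ZMod n → H}

theorem comm_g (cc : ∀ i, c i * (w i * x i) = (w i * x i) * c i) (i : ZMod n) :
    (x i * c i * (x i)⁻¹) * (x i * w i) = (x i * w i) * (x i * c i * (x i)⁻¹) := by
  calc (x i * c i * (x i)⁻¹) * (x i * w i) = x i * (c i * (w i * x i)) * (x i)⁻¹ := by group
    _ = x i * ((w i * x i) * c i) * (x i)⁻¹ := by rw [cc]
    _ = _ := by group

theorem pow_g {a b : ZMod n → ℕ} (pc : ∀ i, (w i * x i) ^ a i = c i ^ b i) (i : ZMod n) :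
    (x i * w i) ^ a i = (x i * c i * (x i)⁻¹) ^ b i := by
  rw [conj_pow, ← pc, ← conj_pow]
  congr 1
  group

/-- A regular copy is of one of the four types. -/
theorem adm_of_regular [LinearOrder H] (hinv : ∀ a b c : H, a ≤ b ↔ c * a ≤ c * b)
    {R o : ZMod n → H} (p q : Fin 3 → ZMod n → ℕ) (cR : ∀ i, R i * x i = x i * R i)
    (co : ∀ i, o i * w i = w i * o i) (cc : ∀ i, c i * (w i * x i) = (w i * x i) * c i)
    (pR : ∀ i, x i ^ p 0 i = R i ^ q 0 i) (po : ∀ i, w i ^ p 2 i = o i ^ q 2 i)
    (pc : ∀ i, (w i * x i) ^ p 1 i = c i ^ q 1 i) {i : ZMod n} (h : Regular p q i) :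
    Adm (0 < q 0 i) (0 < q 2 i) (x i) (w i) (R i) (o i) (x i * c i * (x i)⁻¹) := by
  have tor : ∀ {a : H} {b : ℕ}, 0 < b → a ^ b = 1 → a = 1 := fun hb h => eq_one_of_pow hinv hb h
  obtain ⟨h1, h2⟩ := h.col0
  obtain ⟨h3, h4⟩ := h.col1
  have cg' := comm_g cc i
  have pg' := pow_g pc i
  rcases Nat.eq_zero_or_pos (q 0 i) with hq0 | hq0
  · have hx : x i = 1 := tor h1 (by rw [pR, hq0, pow_zero])
    have e : x i * c i * (x i)⁻¹ = c i := by rw [hx]; group
    rw [e, hx, one_mul] at cg' pg'
    rw [e, hx]
    rcases Nat.eq_zero_or_pos (q 2 i) with hq2 | hq2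
    · have hw : w i = 1 := by
        rcases h.col2 with h5 | h5
        · exact tor h5 (by rw [po, hq2, pow_zero])
        · omega
      have hc : c i = 1 := by
        rw [hw, one_pow] at pg'
        exact tor h3 pg'.symm
      exact Or.inr (Or.inr (Or.inr ⟨⟨rfl, hw, hc⟩, by omega, by omega⟩))
    · exact Or.inr (Or.inr (Or.inl ⟨⟨rfl, co i, ⟨_, _, hq2, po i⟩, cg', _, _, h3, h4, pg'⟩,
        by omega, hq2⟩))
  · rcases Nat.eq_zero_or_pos (q 2 i) with hq2 | hq2
    · have hw : w i = 1 := by
        rcases h.col2 with h5 | h5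
        · exact tor h5 (by rw [po, hq2, pow_zero])
        · omega
      rw [hw, mul_one] at cg' pg'
      refine Or.inr (Or.inl ⟨⟨hw, cR i, cg', _, _, _, _, hq0, h2, pR i, h3, h4, pg', ?_⟩,
        hq0, by omega⟩)
      by_contra hc
      rw [not_or, not_lt, not_lt] at hc
      exact h.not_flat ⟨le_antisymm h2 hc.1, le_antisymm h4 hc.2, hq2⟩
    · exact Or.inl ⟨⟨cR i, ⟨_, _, hq0, h2, pR i⟩, co i, ⟨_, _, hq2, po i⟩, cg', _, _, h3, h4, pg'⟩,
        hq0, hq2⟩

end data

theorem closed_chain_trivial {n : ℕ} (hn : 0 < n) (p q : Fin 3 → ZMod n → ℕ)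
    (h : ClosedSlopes n p q) {H : Type*} [Group H] (hH : LeftOrderable H)
    (f : SurgeryGroup n p q →* H) (g : SurgeryGroup n p q) : f g = 1 := by
  obtain ⟨_, hinv⟩ := lo_order hH
  obtain ⟨x, w, R, o, c, cR, co, cc, pR, po, pc, hZ, hU, key⟩ := surgery_data hn p q f
  apply key
  intro i
  obtain ⟨e1, e2, e3, e4, e5⟩ := closed_trivial hinv hn (g := fun i => x i * c i * (x i)⁻¹)
    (su := fun i => 0 < q 0 i) (sw := fun i => 0 < q 2 i) hZ hU
    (fun i => adm_of_regular hinv p q cR co cc pR po pc (h.regular i)) h.finite0 h.finite2 i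
  refine ⟨e1, e2, e3, e4, ?_⟩
  rw [e1] at e5
  simpa using e5

theorem open_chain_trivial {n : ℕ} (hn : 0 < n) (p q : Fin 3 → ZMod n → ℕ)
    (h : OpenSlopes n p q) {H : Type*} [Group H] (hH : LeftOrderable H)
    (f : SurgeryGroup n p q →* H) (g : SurgeryGroup n p q) : f g = 1 := by
  obtain ⟨_, hinv⟩ := lo_order hH
  obtain ⟨x, w, R, o, c, cR, co, cc, pR, po, pc, hZ, hU, key⟩ := surgery_data hn p q f
  apply key
  have hR0 : R 0 = 1 := by
    have := pR 0
    rw [h.start0.1, pow_zero] at this
    exact eq_one_of_pow hinv h.start0.2 this.symm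
  have hc0 : c 0 = 1 := by
    have := pc 0
    rw [h.start1.1, pow_zero] at this
    exact eq_one_of_pow hinv h.start1.2 this.symm
  intro i
  obtain ⟨e1, e2, e3, e4, e5⟩ := open_trivial hinv hn (g := fun i => x i * c i * (x i)⁻¹) hZ hU
    hR0 (by show x 0 * c 0 * (x 0)⁻¹ = 1; rw [hc0]; group) ⟨_, _, h.start2, po 0⟩
    (fun i hi => (adm_of_regular hinv p q cR co cc pR po pc (h.regular i hi)).admissible) i
  refine ⟨e1, e2, e3, e4, ?_⟩
  rw [e1] at e5
  simpa using e5

theorem result (n : ℕ) (hn : 0 < n) (p q : Fin 3 → ZMod n → ℕ)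
    (h : ClosedSlopes n p q ∨ OpenSlopes n p q) :
    ¬ LeftOrderable (SurgeryGroup n p q) ∧
    ∀ (H : Type) [Group H], LeftOrderable H → ∀ f : SurgeryGroup n p q →* H, ∀ g, f g = 1 := by
  have h : ∀ (H : Type) [Group H], LeftOrderable H →
      ∀ f : SurgeryGroup n p q →* H, ∀ g, f g = 1 := by
    intro H _ hH f g
    rcases h with h | h
    · exact closed_chain_trivial hn p q h hH f g
    · exact open_chain_trivial hn p q h hH f g
  exact ⟨not_lo h, h⟩

end Pool.Agent.Results.MP_9ae2f3_gt.PretzelChainSurgeries
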