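import Pool.Agent.K7.H46.TD.Final
import Pool.Agent.K7.H46.TS.Certs
import Pool.Agent.K7.H46.TW.Certs

set_option autoImplicit false

/-!
# Threefold cyclic branched covers of two-bridge links

A closed chain of tangles on the strands `0, ..., k`, for any `k`: the closure of the word
`(0 1 2 ... (k - 1)) ^ 3`, where the letter `c` stands for a tangle between the strands `c` and
`c + 1`: a rational tangle `p / q` with `0 < p / q ≤ 1` or an alternating tangle diagram of the same
sign which is a sum of tangles, one of which is a single crossing; or the mirror images of these. The
three tangles for the letter `c` have the same sign `ε c`.

If for each letter `c` the three tangles are `ε c / b c` with `b c ≥ 1`, the double branched cover of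
the chain is the 3-fold cyclic branched cover of the two-bridge link with the continued fraction
`2 c₁ + 1 / (2 c₂ + 1 / (... + 1 / (2 c_k)))`, where `c_{i + 1} = (-1) ^ i ε i b i`. In general the cover
is obtained by Dehn surgery on a link with `6 k` components.

The theorem: let there be two crossings in a row in the three tangles for each letter `c` (that is,
`p / q ≤ 1 / 2` for rational tangles, and `b c ≥ 2` for two-bridge links) for which there are places
`i < c < j + 3`, `i < j`, such that the signs of `i, i + 1, i + 2, i + 3` agree and the signs of
`j, j + 1, j + 2, j + 3` agree. Then the fundamental group of the double branched cover has no
nontrivial homomorphism to a left-orderable group. In particular this holds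

* if there are two crossings in a row in the tangles for the letters `c` with `0 < c < k - 1`, with
  arbitrary signs: for all two-bridge links such that `|c_i| ≥ 2` for `1 < i < k`;
* if at most one place has four equal signs (no condition on the tangles), so for all two-bridge
  knots of genus at most two.

For five equal signs and single crossings the statement is false: for `k = 5` the chain is the torus
link `T(3, 6)`, the 3-fold cover of `T(2, 6)` is a Nil manifold.

The proof. Let the group act on a linear order; each region `(i, t)` gives a map `x t` of the order.
(1) For two neighbouring columns of regions `x t`, `y t` we show by induction on the column, up to the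
first four equal letters: if the sign of the letter between them is positive, then
`y (t - 1) p ≤ y t p` if `x t p` is maximal among the `x u p`, and `x (t + 1) p ≤ x t p` if `y t p` is
maximal among the `y u p`, and the opposite inequalities hold at the minima. The same holds from the
right side, by a rotation by `π`. If there is only one place with four equal signs, there is
information at both ends of the block, and it turns out that then the regions of the third column of
the block agree. These steps are checked by certificates evaluated in the kernel (`checkW`, proved
sound in `checkW_sound`).
(2) The spread of a column is the map `V p = max (x i)⁻¹ (x j p)`. After the first column of the first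
block the spread of the column is at most the spread of the next column (`dom_first`). At a column of
tangles with two crossings in a row this property is inherited from the left to the right, and the
spread increases strictly where it is positive (`Dom.step`, `Dom.const`). By symmetry, the spread does
not increase at the last column of the last block. So it is zero there, and from there the whole chain
collapses in both directions.
-/

namespace Pool.Agent.Results.MP_9ae2f3_gt.ThreefoldCyclicCovers

open Pool.Agent.Y479.LS Pool.Agent.K7.H46.TW Pool.Agent.K7.H46.TS Pool.Agent.K7.H46.TD
open Pool.Agent.K7.H39.TB (Tang)

/-- **Chains with three tangles in each column.** -/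
theorem result (k : ℕ) (ε : Fin k → Bool) (T : Fin k → ZMod 3 → Tang)
    (hb : ∀ c t, (T c t).Bounded) (hp : ∀ c t, (T c t).Proper)
    (hε : ∀ i j, FourEqual ε i → FourEqual ε j → i < j →
      ∀ c : Fin k, i < c → c.1 < j.1 + 3 → ∀ t, Double (T c t)) :
    (∀ (H : Type) [Group H], LeftOrderable H → ∀ (f : ThreeChain ε T →* H) (γ : ThreeChain ε T),
      f γ = 1) ∧ ¬ LeftOrderable (ThreeChain ε T) := by
  have hC : ∀ E r, 1 ≤ r → r ≤ 3 → Certs E r := by
    intro E r h1 h2
    interval_cases r <;> cases E
    · exact certs_C1
    · exact certs_E1
    · exact certs_C2
    · exact certs_E2
    · exact certs_C3
    · exact certs_E3
  have h := noLO2 hC (by
    intro A B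
    cases A <;> cases B
    · exact ct_cc
    · exact ct_ce
    · exact ct_ec
    · exact ct_ee) T hb hp hε
  exact ⟨h, h.not_leftOrderable⟩

end Pool.Agent.Results.MP_9ae2f3_gt.ThreefoldCyclicCovers
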